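import Pool.Agent.helper36.BP.SpecR
import Pool.Agent.Lib.PrimeSums

/-!
# bp:HSF
-/

set_option autoImplicit false
set_option linter.unusedVariables false

open Finset
open Pool.Agent.FI Pool.Agent.HK
open Pool.Agent.CH (nit rgh ll2)
open Pool.Agent.SK (tr0 Th)

noncomputable section

namespace Pool.Agent.BP

/-- a function as an arithmetic function -/
def HSF_af (f : ℕ → ℂ) : ArithmeticFunction ℂ := ⟨fun n => if n = 0 then 0 else f n, by simp⟩

theorem HSF_af_apply (f : ℕ → ℂ) {n : ℕ} (hn : n ≠ 0) : HSF_af f n = f n := by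
  show (if n = 0 then 0 else f n) = f n
  rw [if_neg hn]

theorem HSF_cv (F G : ℕ → ℂ) (n : ℕ) : (HSF_af F * HSF_af G) n = cv F G n := by
  rw [ArithmeticFunction.mul_apply]
  unfold cv
  refine sum_congr rfl fun d hd => ?_
  obtain ⟨hd1, hd2⟩ := Nat.mem_divisorsAntidiagonal.1 hd
  have h1 : d.1 ≠ 0 := fun h0 => hd2 (by rw [← hd1, h0, zero_mul])
  have h2 : d.2 ≠ 0 := fun h0 => hd2 (by rw [← hd1, h0, mul_zero])
  rw [HSF_af_apply F h1, HSF_af_apply G h2]

theorem HSF_mul (F G : ℕ → ℂ) : HSF_af (cv F G) = HSF_af F * HSF_af G := by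
  ext n
  by_cases hn : n = 0
  · subst hn
    rw [ArithmeticFunction.map_zero, ArithmeticFunction.map_zero]
  · rw [HSF_af_apply _ hn, HSF_cv]

open scoped Classical in
/-- the sum of the Moebius function over the smooth divisors -/
theorem HSF_ind (y : ℝ) (n : ℕ) (hn : n ≠ 0) :
    ∑ d ∈ n.divisors, (if ∀ p : ℕ, p.Prime → p ∣ d → (p : ℝ) ≤ y then (ArithmeticFunction.moebius d : ℤ) else 0) =
      if rgh y n then 1 else 0 := by
  set F : Finset ℕ := n.primeFactors.filter (fun p => (p : ℝ) ≤ y) with hF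
  set P : ℕ := ∏ p ∈ F, p with hP
  have hFp : ∀ p ∈ F, p.Prime := fun p hp => Nat.prime_of_mem_primeFactors (Finset.mem_filter.1 hp).1
  have hP0 : P ≠ 0 := Finset.prod_ne_zero_iff.2 fun p hp => (hFp p hp).ne_zero
  have hPn : P ∣ n := by
    refine (Finset.prod_dvd_prod_of_subset F n.primeFactors _ (Finset.filter_subset _ _)).trans ?_
    exact Nat.prod_primeFactors_dvd n
  have hpP : ∀ p : ℕ, p.Prime → p ∣ P → (p : ℝ) ≤ y := by
    intro p hp hpd
    obtain ⟨q, hq, hpq⟩ := (Prime.dvd_finsetProd_iff hp.prime _).1 hpd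
    have := (Nat.prime_dvd_prime_iff_eq hp (hFp q hq)).1 hpq
    rw [this]
    exact (Finset.mem_filter.1 hq).2
  have hsub : P.divisors ⊆ n.divisors := Nat.divisors_subset_of_dvd hn hPn
  have h1 : ∑ d ∈ P.divisors, (if ∀ p : ℕ, p.Prime → p ∣ d → (p : ℝ) ≤ y then (ArithmeticFunction.moebius d : ℤ) else 0)
      = ∑ d ∈ n.divisors, (if ∀ p : ℕ, p.Prime → p ∣ d → (p : ℝ) ≤ y then (ArithmeticFunction.moebius d : ℤ) else 0) := by
    refine Finset.sum_subset hsub fun d hd hdP => ?_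
    by_cases hs : ∀ p : ℕ, p.Prime → p ∣ d → (p : ℝ) ≤ y
    · rw [if_pos hs]
      by_contra hne
      apply hdP
      have hsq : Squarefree d := ArithmeticFunction.moebius_ne_zero_iff_squarefree.1 hne
      rw [Nat.mem_divisors]
      refine ⟨?_, hP0⟩
      rw [← Nat.prod_primeFactors_of_squarefree hsq]
      refine Finset.prod_dvd_prod_of_subset _ _ _ fun p hp => ?_
      have hpp := Nat.prime_of_mem_primeFactors hp
      have hpd := Nat.dvd_of_mem_primeFactors hp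
      exact Finset.mem_filter.2 ⟨Nat.mem_primeFactors.2 ⟨hpp, hpd.trans (Nat.dvd_of_mem_divisors hd), hn⟩, hs p hpp hpd⟩
    · rw [if_neg hs]
  have h2 : ∑ d ∈ P.divisors, (if ∀ p : ℕ, p.Prime → p ∣ d → (p : ℝ) ≤ y then (ArithmeticFunction.moebius d : ℤ) else 0)
      = ∑ d ∈ P.divisors, (ArithmeticFunction.moebius d : ℤ) := by
    refine Finset.sum_congr rfl fun d hd => ?_
    rw [if_pos fun p hp hpd => hpP p hp (hpd.trans (Nat.dvd_of_mem_divisors hd))]
  rw [← h1, h2, ← ArithmeticFunction.coe_mul_zeta_apply, ArithmeticFunction.moebius_mul_coe_zeta, ArithmeticFunction.one_apply]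
  refine if_congr ?_ rfl rfl
  constructor
  · intro h
    refine ⟨hn, fun p hp hpn => ?_⟩
    by_contra hlt
    have h3 : p ∈ F := Finset.mem_filter.2 ⟨Nat.mem_primeFactors.2 ⟨hp, hpn, hn⟩, not_lt.1 hlt⟩
    have h4 : p ∣ P := Finset.dvd_prod_of_mem _ h3
    rw [h] at h4
    exact hp.one_lt.ne' (Nat.dvd_one.1 h4)
  · rintro ⟨_, h⟩
    have h3 : F = ∅ := by
      rw [hF, Finset.filter_eq_empty_iff]
      intro p hp
      exact not_le.2 (h p (Nat.prime_of_mem_primeFactors hp) (Nat.dvd_of_mem_primeFactors hp))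
    rw [hP, h3, Finset.prod_empty]

open scoped Classical in
theorem HSF_rough {y : ℝ} {g : ℕ → ℂ} (hg : CM g) : HSF_af (rg y g) = HSF_af (ms y g) * HSF_af g := by
  ext n
  by_cases hn : n = 0
  · subst hn
    rw [ArithmeticFunction.map_zero, ArithmeticFunction.map_zero]
  rw [HSF_af_apply _ hn, HSF_cv]
  unfold cv
  have h1 : ∑ d ∈ n.divisorsAntidiagonal, ms y g d.1 * g d.2 =
      ∑ d ∈ n.divisorsAntidiagonal, ((if ∀ p : ℕ, p.Prime → p ∣ d.1 → (p : ℝ) ≤ y then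
        (ArithmeticFunction.moebius d.1 : ℤ) else 0 : ℤ) : ℂ) * g n := by
    refine Finset.sum_congr rfl fun d hd => ?_
    obtain ⟨hd1, hd2⟩ := Nat.mem_divisorsAntidiagonal.1 hd
    unfold ms mg
    split_ifs with h
    · rw [← hd1, hg.2.2.1]
      ring
    · simp
  have h2 : ∑ d ∈ n.divisorsAntidiagonal, ((if ∀ p : ℕ, p.Prime → p ∣ d.1 → (p : ℝ) ≤ y then
        (ArithmeticFunction.moebius d.1 : ℤ) else 0 : ℤ) : ℂ) * g n =
      ((∑ d ∈ n.divisors, (if ∀ p : ℕ, p.Prime → p ∣ d → (p : ℝ) ≤ y then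
        (ArithmeticFunction.moebius d : ℤ) else 0) : ℤ) : ℂ) * g n := by
    rw [← Finset.sum_mul, Nat.sum_divisorsAntidiagonal (n := n) (fun a _ => ((if ∀ p : ℕ, p.Prime → p ∣ a → (p : ℝ) ≤ y then
        (ArithmeticFunction.moebius a : ℤ) else 0 : ℤ) : ℂ))]
    push_cast
    rfl
  rw [h1, h2, HSF_ind y n hn]
  unfold rg
  split_ifs
  · simp
  · simp

theorem HSF_inv {g : ℕ → ℂ} (hg : CM g) : HSF_af (mg g) * HSF_af g = 1 := by
  ext n
  by_cases hn : n = 0
  · subst hn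
    rw [ArithmeticFunction.map_zero, ArithmeticFunction.map_zero]
  rw [HSF_cv]
  unfold cv mg
  have h1 : ∑ d ∈ n.divisorsAntidiagonal, ((ArithmeticFunction.moebius d.1 : ℤ) : ℂ) * g d.1 * g d.2 =
      ∑ d ∈ n.divisorsAntidiagonal, ((ArithmeticFunction.moebius d.1 : ℤ) : ℂ) * g n := by
    refine Finset.sum_congr rfl fun d hd => ?_
    obtain ⟨hd1, hd2⟩ := Nat.mem_divisorsAntidiagonal.1 hd
    rw [← hd1, hg.2.2.1]
    ring
  have h2 : ∑ d ∈ n.divisorsAntidiagonal, ((ArithmeticFunction.moebius d.1 : ℤ) : ℂ) * g n =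
      ((∑ d ∈ n.divisors, (ArithmeticFunction.moebius d : ℤ) : ℤ) : ℂ) * g n := by
    rw [← Finset.sum_mul, Nat.sum_divisorsAntidiagonal (n := n) (fun a _ => ((ArithmeticFunction.moebius a : ℤ) : ℂ))]
    push_cast
    rfl
  rw [h1, h2, ← ArithmeticFunction.coe_mul_zeta_apply, ArithmeticFunction.moebius_mul_coe_zeta, ArithmeticFunction.one_apply,
    ArithmeticFunction.one_apply]
  split_ifs with h
  · rw [h, hg.2.1]
    simp
  · simp

open scoped Classical in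
theorem HSF_CM {y : ℝ} {g : ℕ → ℂ} (hg : CM g) : CM (rg y g) := by
  obtain ⟨h0, h1, h2, h3⟩ := hg
  refine ⟨?_, ?_, ?_, ?_⟩
  · unfold rg
    rw [h0]
    simp
  · unfold rg
    rw [if_pos, h1]
    exact ⟨one_ne_zero, fun p hp hp1 => absurd (Nat.dvd_one.1 hp1) hp.one_lt.ne'⟩
  · intro m n
    unfold rg
    by_cases hm : rgh y m
    · by_cases hn : rgh y n
      · have hmn : rgh y (m * n) := by
          refine ⟨mul_ne_zero hm.1 hn.1, fun p hp hpd => ?_⟩
          rcases (Nat.Prime.dvd_mul hp).1 hpd with h | h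
          · exact hm.2 p hp h
          · exact hn.2 p hp h
        rw [if_pos hm, if_pos hn, if_pos hmn, h2]
      · have hmn : ¬ rgh y (m * n) := by
          intro h
          apply hn
          refine ⟨fun h0 => h.1 (by rw [h0, mul_zero]), fun p hp hpd => h.2 p hp (Dvd.dvd.mul_left hpd _)⟩
        rw [if_neg hn, if_neg hmn, mul_zero]
    · have hmn : ¬ rgh y (m * n) := by
        intro h
        apply hm
        refine ⟨fun h0 => h.1 (by rw [h0, zero_mul]), fun p hp hpd => h.2 p hp (Dvd.dvd.mul_right hpd _)⟩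
      rw [if_neg hm, if_neg hmn, zero_mul]
  · intro n
    unfold rg
    split_ifs
    · exact h3 n
    · simp

theorem HSF_A (y : ℝ) (g h : ℕ → ℂ) (hg : CM g) (hh : CM h) (n : ℕ) (hn : 1 ≤ n) :
    cv (rg y g) (rg y h) n = cv (hs y g h) (cv g h) n ∧
    cv (mg g) (mg h) n = cv (hs y g h) (cv (mg (rg y g)) (mg (rg y h))) n := by
  have hmg : ∀ {g : ℕ → ℂ}, CM g → HSF_af (mg g) = HSF_af (ms y g) * HSF_af (mg (rg y g)) := by
    intro g hg
    have e1 := HSF_inv hg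
    have e2 := HSF_inv (HSF_CM (y := y) hg)
    have e3 := HSF_rough (y := y) hg
    calc HSF_af (mg g) = HSF_af (mg g) * (HSF_af (mg (rg y g)) * HSF_af (rg y g)) := by rw [e2, mul_one]
      _ = HSF_af (mg g) * (HSF_af (mg (rg y g)) * (HSF_af (ms y g) * HSF_af g)) := by rw [e3]
      _ = (HSF_af (mg g) * HSF_af g) * (HSF_af (ms y g) * HSF_af (mg (rg y g))) := by ring
      _ = _ := by rw [e1, one_mul]
  constructor
  · rw [← HSF_cv, ← HSF_cv, HSF_rough hg, HSF_rough hh, hs, HSF_mul, HSF_mul]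
    congr 1
    ring
  · rw [← HSF_cv, ← HSF_cv, hmg hg, hmg hh, hs, HSF_mul, HSF_mul]
    congr 1
    ring

/-! ### the third claim -/

theorem HSF_euler (M : ℕ) (hM : 2 ≤ M) (ε : ℝ) (h3 : ∀ p : ℕ, p.Prime → p ≤ M → (p : ℝ) ^ ε ≤ 3) :
    ∑ d ∈ (primorial M).divisors, (d : ℝ) ^ ε / d ≤ Real.exp 12 * Real.log M ^ 3 := by
  let g : ArithmeticFunction ℝ := ⟨fun n => if n = 0 then 0 else (n : ℝ) ^ ε / n, by simp⟩
  have hgv : ∀ n, n ≠ 0 → g n = (n : ℝ) ^ ε / n := fun n hn => if_neg hn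
  have hg : g.IsMultiplicative := by
    refine ⟨?_, ?_⟩
    · rw [hgv 1 one_ne_zero]
      simp
    · intro m n _
      by_cases hm : m = 0
      · subst hm; simp
      by_cases hn : n = 0
      · subst hn; simp
      rw [hgv m hm, hgv n hn, hgv (m * n) (mul_ne_zero hm hn)]
      push_cast
      rw [Real.mul_rpow (Nat.cast_nonneg m) (Nat.cast_nonneg n)]
      rw [mul_div_mul_comm]
  have h1 := hg.prodPrimeFactors_one_add_of_squarefree (squarefree_primorial M)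
  have h2 : ∑ d ∈ (primorial M).divisors, (d : ℝ) ^ ε / d =
      ∏ p ∈ Nat.primesLE M, (1 + (p : ℝ) ^ ε / p) := by
    rw [← primeFactors_primorial]
    have e1 : ∑ d ∈ (primorial M).divisors, (d : ℝ) ^ ε / d = ∑ d ∈ (primorial M).divisors, g d := by
      refine Finset.sum_congr rfl fun d hd => ?_
      rw [hgv d (Nat.pos_of_mem_divisors hd).ne']
    rw [e1, ← h1]
    refine Finset.prod_congr rfl fun p hp => ?_
    rw [hgv p (Nat.prime_of_mem_primeFactors hp).ne_zero]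
  rw [h2]
  have h4 : ∏ p ∈ Nat.primesLE M, (1 + (p : ℝ) ^ ε / p) ≤
      ∏ p ∈ Nat.primesLE M, Real.exp (3 * (1 / (p : ℝ))) := by
    refine prod_le_prod (fun p _ => by positivity) fun p hp => ?_
    have hp1 : p.Prime ∧ p ≤ M := by
      rw [Nat.primesLE_eq_filter_range, mem_filter, mem_range] at hp
      exact ⟨hp.2, by omega⟩
    have hp0 : (0 : ℝ) < p := by exact_mod_cast hp1.1.pos
    have h5 : (p : ℝ) ^ ε / p ≤ 3 * (1 / (p : ℝ)) := by
      rw [div_eq_mul_one_div]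
      exact mul_le_mul_of_nonneg_right (h3 p hp1.1 hp1.2) (by positivity)
    have h6 := Real.add_one_le_exp (3 * (1 / (p : ℝ)))
    linarith
  refine h4.trans ?_
  rw [← Real.exp_sum, ← mul_sum]
  have h5 := Pool.Agent.Lib.PrimeSums.sum_inv_le M hM
  have hM2 : (2 : ℝ) ≤ M := by exact_mod_cast hM
  have hlog : 0 < Real.log M := Real.log_pos (by linarith)
  calc Real.exp (3 * ∑ p ∈ Nat.primesLE M, 1 / (p : ℝ))
      ≤ Real.exp (3 * (Real.log (Real.log M) + 4)) := Real.exp_le_exp.2 (by linarith)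
    _ = Real.exp (12 + Real.log (Real.log M ^ 3)) := by
        rw [Real.log_pow]
        congr 1
        push_cast
        ring
    _ = Real.exp 12 * Real.log M ^ 3 := by
        rw [Real.exp_add, Real.exp_log (by positivity)]

open scoped Classical in
theorem HSF_one {y : ℝ} (hy : 2 ≤ y) {g : ℕ → ℂ} (hg : CM g) (E : ℕ) :
    ∑ a ∈ Ioc 0 E, ‖ms y g a‖ * ((a : ℝ) ^ (1 / Real.log y) / a) ≤ Real.exp 12 * (1 + Real.log y) ^ 3 := by
  have hy0 : 0 < y := by linarith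
  have hly : 0 < Real.log y := Real.log_pos (by linarith)
  set M := ⌊y⌋₊ with hM
  have hM2 : 2 ≤ M := Nat.le_floor (by exact_mod_cast hy)
  have hMy : (M : ℝ) ≤ y := Nat.floor_le hy0.le
  have hM0 : (2 : ℝ) ≤ M := by exact_mod_cast hM2
  have h3 : ∀ p : ℕ, p.Prime → p ≤ M → (p : ℝ) ^ (1 / Real.log y) ≤ 3 := by
    intro p hp hpM
    have h4 : (p : ℝ) ≤ y := le_trans (by exact_mod_cast hpM) hMy
    calc (p : ℝ) ^ (1 / Real.log y) ≤ y ^ (1 / Real.log y) :=
          Real.rpow_le_rpow (Nat.cast_nonneg p) h4 (by positivity)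
      _ = Real.exp 1 := by
          rw [Real.rpow_def_of_pos hy0]
          congr 1
          field_simp
      _ ≤ 3 := by have := Real.exp_one_lt_d9; linarith
  have h4 := HSF_euler M hM2 (1 / Real.log y) h3
  have h5 : Real.exp 12 * Real.log M ^ 3 ≤ Real.exp 12 * (1 + Real.log y) ^ 3 := by
    refine mul_le_mul_of_nonneg_left ?_ (Real.exp_pos _).le
    refine pow_le_pow_left₀ (Real.log_nonneg (by linarith)) ?_ 3
    have := Real.log_le_log (by linarith) hMy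
    linarith
  refine le_trans ?_ (h4.trans h5)
  rw [← Finset.sum_filter_ne_zero]
  have hone : ∀ a : ℕ, ‖ms y g a‖ ≤ 1 := by
    intro a
    unfold ms mg
    split_ifs
    · rw [norm_mul]
      refine mul_le_one₀ ?_ (norm_nonneg _) (hg.2.2.2 a)
      rw [Complex.norm_intCast]
      exact_mod_cast ArithmeticFunction.abs_moebius_le_one
    · simp
  refine le_trans (Finset.sum_le_sum (g := fun a : ℕ => (a : ℝ) ^ (1 / Real.log y) / (a : ℝ)) fun a _ => ?_) ?_
  · calc ‖ms y g a‖ * ((a : ℝ) ^ (1 / Real.log y) / a) ≤ 1 * ((a : ℝ) ^ (1 / Real.log y) / a) :=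
          mul_le_mul_of_nonneg_right (hone a) (by positivity)
      _ = _ := one_mul _
  · refine Finset.sum_le_sum_of_subset_of_nonneg ?_ fun a _ _ => by positivity
    intro a ha
    obtain ⟨ha1, ha2⟩ := Finset.mem_filter.1 ha
    have ha3 : ms y g a ≠ 0 := by
      intro h
      rw [h, norm_zero, zero_mul] at ha2
      exact ha2 rfl
    unfold ms mg at ha3
    by_cases hs : ∀ p : ℕ, p.Prime → p ∣ a → (p : ℝ) ≤ y
    · rw [if_pos hs] at ha3
      have hμ : ArithmeticFunction.moebius a ≠ 0 := by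
        intro h
        rw [h] at ha3
        simp at ha3
      have hsq : Squarefree a := ArithmeticFunction.moebius_ne_zero_iff_squarefree.1 hμ
      rw [Nat.mem_divisors]
      refine ⟨?_, primorial_ne_zero M⟩
      rw [← Nat.prod_primeFactors_of_squarefree hsq, ← Nat.prod_primeFactors_of_squarefree (squarefree_primorial M)]
      refine Finset.prod_dvd_prod_of_subset _ _ _ fun p hp => ?_
      have hpp := Nat.prime_of_mem_primeFactors hp
      have hpd := Nat.dvd_of_mem_primeFactors hp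
      rw [Nat.mem_primeFactors]
      exact ⟨hpp, hpp.dvd_primorial_iff.2 (Nat.le_floor (hs p hpp hpd)), primorial_ne_zero M⟩
    · rw [if_neg hs] at ha3
      exact absurd rfl ha3

theorem HSF_prod (E : ℕ) (F G : ℕ → ℝ) (hF : ∀ n, 0 ≤ F n) (hG : ∀ n, 0 ≤ G n) :
    ∑ e ∈ Ioc 0 E, ∑ d ∈ e.divisorsAntidiagonal, F d.1 * G d.2 ≤
      (∑ a ∈ Ioc 0 E, F a) * ∑ b ∈ Ioc 0 E, G b := by
  classical
  have h1 : ∀ e ∈ Ioc 0 E, ∑ d ∈ e.divisorsAntidiagonal, F d.1 * G d.2 ≤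
      ∑ d ∈ Ioc 0 E ×ˢ Ioc 0 E, if d.1 * d.2 = e then F d.1 * G d.2 else 0 := by
    intro e he
    rw [← Finset.sum_filter]
    refine Finset.sum_le_sum_of_subset_of_nonneg ?_ fun d _ _ => mul_nonneg (hF _) (hG _)
    intro d hd
    obtain ⟨hd1, hd2⟩ := Nat.mem_divisorsAntidiagonal.1 hd
    have h1 : d.1 ≠ 0 := fun h0 => hd2 (by rw [← hd1, h0, zero_mul])
    have h2 : d.2 ≠ 0 := fun h0 => hd2 (by rw [← hd1, h0, mul_zero])
    have h3 : d.1 ≤ e := by rw [← hd1]; exact Nat.le_mul_of_pos_right _ (Nat.pos_of_ne_zero h2)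
    have h4 : d.2 ≤ e := by rw [← hd1]; exact Nat.le_mul_of_pos_left _ (Nat.pos_of_ne_zero h1)
    rw [Finset.mem_Ioc] at he
    refine Finset.mem_filter.2 ⟨Finset.mem_product.2 ⟨Finset.mem_Ioc.2 ⟨?_, ?_⟩, Finset.mem_Ioc.2 ⟨?_, ?_⟩⟩, hd1⟩ <;> omega
  have h0 : ∑ e ∈ Ioc 0 E, ∑ d ∈ e.divisorsAntidiagonal, F d.1 * G d.2 ≤
      ∑ e ∈ Ioc 0 E, ∑ d ∈ Ioc 0 E ×ˢ Ioc 0 E, if d.1 * d.2 = e then F d.1 * G d.2 else 0 :=
    Finset.sum_le_sum h1
  refine h0.trans ?_
  have e0 : (∑ a ∈ Ioc 0 E, F a) * ∑ b ∈ Ioc 0 E, G b = ∑ d ∈ Ioc 0 E ×ˢ Ioc 0 E, F d.1 * G d.2 := by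
    rw [Finset.sum_mul_sum, Finset.sum_product]
  rw [e0, Finset.sum_comm]
  refine Finset.sum_le_sum fun d _ => ?_
  rw [Finset.sum_ite_eq]
  split_ifs
  · exact le_rfl
  · exact mul_nonneg (hF _) (hG _)

theorem HSF : HSF_stmt := by
  refine ⟨fun y g h hg hh n hn => HSF_A y g h hg hh n hn, Real.exp 12 * Real.exp 12, by positivity, ?_⟩
  intro y g h hy hg hh E
  have hly : 0 < Real.log y := Real.log_pos (by linarith)
  set θ : ℝ := 1 / Real.log y with hθ
  have h1 : ∀ e ∈ Ioc 0 E, ‖hs y g h e‖ * (e : ℝ) ^ θ / e ≤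
      ∑ d ∈ e.divisorsAntidiagonal, (‖ms y g d.1‖ * ((d.1 : ℝ) ^ θ / d.1)) * (‖ms y h d.2‖ * ((d.2 : ℝ) ^ θ / d.2)) := by
    intro e he
    have he0 : (0 : ℝ) < e := by exact_mod_cast (Finset.mem_Ioc.1 he).1
    have h2 : ‖hs y g h e‖ ≤ ∑ d ∈ e.divisorsAntidiagonal, ‖ms y g d.1‖ * ‖ms y h d.2‖ := by
      unfold hs cv
      refine (norm_sum_le _ _).trans (le_of_eq ?_)
      exact Finset.sum_congr rfl fun d _ => norm_mul _ _
    rw [mul_div_assoc]
    refine (mul_le_mul_of_nonneg_right h2 (by positivity)).trans (le_of_eq ?_)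
    rw [Finset.sum_mul]
    refine Finset.sum_congr rfl fun d hd => ?_
    obtain ⟨hd1, hd2⟩ := Nat.mem_divisorsAntidiagonal.1 hd
    rw [← hd1]
    push_cast
    rw [Real.mul_rpow (Nat.cast_nonneg _) (Nat.cast_nonneg _), mul_div_mul_comm]
    ring
  have h1' : ∑ e ∈ Ioc 0 E, ‖hs y g h e‖ * (e : ℝ) ^ θ / e ≤ ∑ e ∈ Ioc 0 E,
      ∑ d ∈ e.divisorsAntidiagonal, (‖ms y g d.1‖ * ((d.1 : ℝ) ^ θ / d.1)) * (‖ms y h d.2‖ * ((d.2 : ℝ) ^ θ / d.2)) :=
    Finset.sum_le_sum h1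
  refine h1'.trans ?_
  refine (HSF_prod E (fun a : ℕ => ‖ms y g a‖ * ((a : ℝ) ^ θ / (a : ℝ))) (fun b : ℕ => ‖ms y h b‖ * ((b : ℝ) ^ θ / (b : ℝ)))
    (fun n => by positivity) (fun n => by positivity)).trans ?_
  have h3 := HSF_one hy hg E
  have h4 := HSF_one hy hh E
  calc (∑ a ∈ Ioc 0 E, ‖ms y g a‖ * ((a : ℝ) ^ θ / a)) * ∑ b ∈ Ioc 0 E, ‖ms y h b‖ * ((b : ℝ) ^ θ / b)
      ≤ (Real.exp 12 * (1 + Real.log y) ^ 3) * (Real.exp 12 * (1 + Real.log y) ^ 3) :=
        mul_le_mul h3 h4 (Finset.sum_nonneg fun _ _ => by positivity) (by positivity)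
    _ = _ := by ring

end Pool.Agent.BP
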